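import Mathlib

/-! ns_notes_94 (C)(3),(4): selection of the slowest corners and linearity of the path (pure real analysis). -/

set_option autoImplicit false

namespace Pool.Agent.Helper33.MX

open MeasureTheory Set Filter Topology

/-- a monotone function grows at least by the integral of its derivative -/
theorem int_deriv_le {f : ℝ → ℝ} {a b : ℝ} (hab : a ≤ b) (hf : MonotoneOn f (Icc a b)) :
    IntervalIntegrable (deriv f) volume a b ∧ ∫ s in a..b, deriv f s ≤ f b - f a := by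
  have h1 : MonotoneOn f (uIcc a b) := by rwa [uIcc_of_le hab]
  refine ⟨h1.intervalIntegrable_deriv, ?_⟩
  have h2 := h1.intervalIntegral_deriv_mem_uIcc
  have h3 : 0 ≤ f b - f a := sub_nonneg.mpr (hf (left_mem_Icc.mpr hab) (right_mem_Icc.mpr hab) hab)
  rw [uIcc_of_le h3] at h2
  exact h2.2

/-- (S1) the path of a near-minimal corner is nearly linear -/
theorem lin_path {M : ℕ} {b W : ℝ} {w : Fin M → ℝ} {lam : Fin M → ℝ → ℝ}
    (hm : ∀ k, MonotoneOn (lam k) (Icc 0 b)) (h0 : ∀ k, lam k 0 = 0)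
    (hub : ∀ k, ∀ s ∈ Icc (0 : ℝ) b, lam k s ≤ w k * s)
    (hW : ∀ᵐ s ∂(volume.restrict (Ioo 0 b)), W ≤ ∑ k, deriv (lam k) s) :
    ∀ s ∈ Icc (0 : ℝ) b, W * s ≤ ∑ k, lam k s ∧
      ∀ k, w k * s - (∑ j, w j - W) * s ≤ lam k s ∧ lam k s ≤ w k * s := by
  intro s hs
  have hs0 : (0 : ℝ) ≤ s := hs.1
  have hsub : Icc 0 s ⊆ Icc 0 b := Icc_subset_Icc_right hs.2
  have h1 : ∀ k, IntervalIntegrable (deriv (lam k)) volume 0 s ∧ ∫ u in (0:ℝ)..s, deriv (lam k) u ≤ lam k s - lam k 0 :=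
    fun k => int_deriv_le hs0 ((hm k).mono hsub)
  have h2 : W * s ≤ ∫ u in (0:ℝ)..s, ∑ k, deriv (lam k) u := by
    have e1 : ∫ _ in (0:ℝ)..s, W = W * s := by simp [mul_comm]
    rw [← e1]
    apply intervalIntegral.integral_mono_ae_restrict hs0 (by simp)
    · have := IntervalIntegrable.sum (μ := volume) (a := 0) (b := s) Finset.univ
        (f := fun k => deriv (lam k)) (fun k _ => (h1 k).1)
      exact this.congr (fun u _ => by simp)
    · have h3 : ∀ᵐ u ∂(volume.restrict (Ioo 0 s)), W ≤ ∑ k, deriv (lam k) u :=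
        ae_mono (Measure.restrict_mono (Ioo_subset_Ioo_right hs.2) le_rfl) hW
      have h4 : volume.restrict (Icc 0 s) = volume.restrict (Ioo (0:ℝ) s) := by
        exact (Measure.restrict_congr_set Ioo_ae_eq_Icc).symm
      rw [h4]
      exact h3
  have h3 : ∫ u in (0:ℝ)..s, ∑ k, deriv (lam k) u = ∑ k, ∫ u in (0:ℝ)..s, deriv (lam k) u :=
    intervalIntegral.integral_finsetSum (fun k _ => (h1 k).1)
  have h4 : W * s ≤ ∑ k, lam k s := by
    calc W * s ≤ ∑ k, ∫ u in (0:ℝ)..s, deriv (lam k) u := by rw [← h3]; exact h2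
      _ ≤ ∑ k, lam k s := Finset.sum_le_sum fun k _ => by
          have := (h1 k).2
          rw [h0 k, sub_zero] at this
          exact this
  refine ⟨h4, fun k => ⟨?_, hub k s hs⟩⟩
  have h5 : ∑ j, lam j s ≤ lam k s + ∑ j ∈ Finset.univ.erase k, w j * s := by
    rw [← Finset.add_sum_erase _ _ (Finset.mem_univ k)]
    gcongr with j _
    exact hub j s hs
  have h6 : ∑ j, w j = w k + ∑ j ∈ Finset.univ.erase k, w j := (Finset.add_sum_erase _ _ (Finset.mem_univ k)).symm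
  rw [← Finset.sum_mul] at h5
  rw [h6]
  nlinarith [h4, h5]

/-- (S2) selection: total weight minimal, then the rate maximal -/
theorem select {K : Type*} [Nonempty K] {M : ℕ} (w : K → Fin M → ℝ) (rho : K → ℝ) {r₀ : ℝ}
    (hw : ∀ T k, 1 ≤ w T k) (h0 : ∀ T, r₀ ≤ rho T) (h1 : ∀ T, rho T ≤ 1) :
    ∃ (W rr : ℝ) (winf : Fin M → ℝ) (T : ℕ → K),
      (∀ T, W ≤ ∑ k, w T k) ∧ Tendsto (fun j => ∑ k, w (T j) k) atTop (𝓝 W) ∧
      (∀ k, Tendsto (fun j => w (T j) k) atTop (𝓝 (winf k))) ∧ ∑ k, winf k = W ∧ (∀ k, 1 ≤ winf k) ∧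
      Tendsto (fun j => rho (T j)) atTop (𝓝 rr) ∧ r₀ ≤ rr ∧ rr ≤ 1 ∧
      ∀ e > 0, ∃ d > 0, ∀ T, ∑ k, w T k ≤ W + d → rho T ≤ rr + e := by
  classical
  set F : K → ℝ := fun T => ∑ k, w T k with hF
  have hbdd : BddBelow (range F) := ⟨0, by
    rintro _ ⟨T, rfl⟩
    exact Finset.sum_nonneg fun k _ => zero_le_one.trans (hw T k)⟩
  set W : ℝ := iInf F with hW
  have hWle : ∀ T, W ≤ F T := fun T => ciInf_le hbdd T
  -- near-minimal corners
  have hne : ∀ d > 0, ∃ T, F T ≤ W + d := by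
    intro d hd
    obtain ⟨T, hT⟩ := exists_lt_of_ciInf_lt (show iInf F < W + d by linarith)
    exact ⟨T, hT.le⟩
  let A : ℝ → Set ℝ := fun d => rho '' {T | F T ≤ W + d}
  have hA : ∀ d > 0, (A d).Nonempty := fun d hd => by
    obtain ⟨T, hT⟩ := hne d hd
    exact ⟨rho T, T, hT, rfl⟩
  have hAb : ∀ d, BddAbove (A d) := fun d => ⟨1, by rintro _ ⟨T, -, rfl⟩; exact h1 T⟩
  let g : ℕ → ℝ := fun j => sSup (A (1 / (j + 1)))
  have hpos : ∀ j : ℕ, (0:ℝ) < 1 / (j + 1) := fun j => by positivity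
  have hg0 : ∀ j, r₀ ≤ g j := fun j => by
    obtain ⟨x, T, hT, rfl⟩ := hA _ (hpos j)
    exact (h0 T).trans (le_csSup (hAb _) ⟨T, hT, rfl⟩)
  have hg1 : ∀ j, g j ≤ 1 := fun j => csSup_le (hA _ (hpos j)) (by rintro _ ⟨T, -, rfl⟩; exact h1 T)
  have hganti : Antitone g := by
    intro i j hij
    apply csSup_le_csSup (hAb _) (hA _ (hpos j))
    rintro _ ⟨T, hT, rfl⟩
    have hT' : F T ≤ W + 1 / ((j:ℝ) + 1) := hT
    have : (1:ℝ) / (j + 1) ≤ 1 / (i + 1) := by
      apply one_div_le_one_div_of_le (by positivity)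
      have : (i:ℝ) ≤ j := by exact_mod_cast hij
      linarith
    exact ⟨T, show F T ≤ W + 1 / ((i:ℝ) + 1) by linarith, rfl⟩
  have hgb : BddBelow (range g) := ⟨r₀, by rintro _ ⟨j, rfl⟩; exact hg0 j⟩
  set rr : ℝ := iInf g with hrr
  have hrg : ∀ j, rr ≤ g j := fun j => ciInf_le hgb j
  have hlim : Tendsto g atTop (𝓝 rr) := tendsto_atTop_ciInf hganti hgb
  have hr0 : r₀ ≤ rr := le_ciInf hg0
  have hr1 : rr ≤ 1 := (hrg 0).trans (hg1 0)
  -- near-maximal rates
  have hch : ∀ j : ℕ, ∃ T, F T ≤ W + 1 / (j + 1) ∧ g j - 1 / (j + 1) ≤ rho T := by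
    intro j
    obtain ⟨x, ⟨T, hT, rfl⟩, hx⟩ := exists_lt_of_lt_csSup (hA _ (hpos j))
      (show g j - 1 / (j + 1) < sSup (A (1 / (j + 1))) by
        have : g j = sSup (A (1 / (j + 1))) := rfl
        rw [← this]
        linarith [hpos j])
    exact ⟨T, hT, hx.le⟩
  choose T hTF hTr using hch
  have h1j : Tendsto (fun j : ℕ => (1:ℝ) / (j + 1)) atTop (𝓝 0) := tendsto_one_div_add_atTop_nhds_zero_nat
  have hTF' : Tendsto (fun j => F (T j)) atTop (𝓝 W) := by
    refine tendsto_of_tendsto_of_tendsto_of_le_of_le tendsto_const_nhds ?_ (fun j => hWle (T j)) hTF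
    simpa using (tendsto_const_nhds (x := W)).add h1j
  have hTr' : Tendsto (fun j => rho (T j)) atTop (𝓝 rr) := by
    refine tendsto_of_tendsto_of_tendsto_of_le_of_le ?_ hlim hTr (fun j => ?_)
    · simpa using hlim.sub h1j
    · exact le_csSup (hAb _) ⟨T j, hTF j, rfl⟩
  -- convergent weights
  have hcpt : IsCompact (Set.pi univ fun _ : Fin M => Icc (1:ℝ) (W + 1)) := isCompact_univ_pi fun _ => isCompact_Icc
  have hmem : ∀ j, w (T j) ∈ Set.pi univ fun _ : Fin M => Icc (1:ℝ) (W + 1) := by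
    intro j k _
    refine ⟨hw _ _, ?_⟩
    have h2 : w (T j) k ≤ F (T j) := Finset.single_le_sum (f := fun k => w (T j) k)
      (fun i _ => zero_le_one.trans (hw (T j) i)) (Finset.mem_univ k)
    have h3 := hTF j
    have h4 : (1:ℝ) / (j + 1) ≤ 1 := by
      rw [div_le_one (by positivity)]
      have : (0:ℝ) ≤ j := Nat.cast_nonneg j
      linarith
    linarith
  obtain ⟨winf, hwin, φ, hφ, hconv⟩ := hcpt.tendsto_subseq hmem
  have hk : ∀ k, Tendsto (fun j => w (T (φ j)) k) atTop (𝓝 (winf k)) := fun k =>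
    (tendsto_pi_nhds.mp hconv) k
  refine ⟨W, rr, winf, fun j => T (φ j), hWle, hTF'.comp hφ.tendsto_atTop, hk, ?_, fun k => (hwin k (mem_univ k)).1,
    hTr'.comp hφ.tendsto_atTop, hr0, hr1, ?_⟩
  · refine tendsto_nhds_unique (f := fun j => F (T (φ j))) ?_ (hTF'.comp hφ.tendsto_atTop)
    exact tendsto_finsetSum _ fun k _ => hk k
  · intro e he
    obtain ⟨j, hj⟩ := ((hlim.eventually (gt_mem_nhds (show rr < rr + e by linarith))).exists)
    refine ⟨1 / (j + 1), hpos j, fun T hT => ?_⟩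
    exact (le_csSup (hAb _) ⟨T, hT, rfl⟩).trans hj.le

/-- (S3) upper bound of the deficit: `f` antitone, `η` Lipschitz and monotone, `η' + f' ≤ ρ η'` almost everywhere -/
theorem def_le {f eta : ℝ → ℝ} {b rho : ℝ} (hb : 0 ≤ b) (hf : AntitoneOn f (Icc 0 b))
    (he : MonotoneOn eta (Icc 0 b)) (hac : AbsolutelyContinuousOnInterval eta 0 b)
    (hae : ∀ᵐ s ∂(volume.restrict (Ioo 0 b)), deriv eta s + deriv f s ≤ rho * deriv eta s) :
    (eta b + f b) - (eta 0 + f 0) ≤ rho * (eta b - eta 0) := by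
  have h1 := int_deriv_le hb he
  have h2 := int_deriv_le hb hf.neg
  have e2 : deriv (fun x => -f x) = fun s => -deriv f s := by
    funext s
    exact deriv.fun_neg
  have h3 : ∫ s in (0:ℝ)..b, deriv eta s = eta b - eta 0 := hac.integral_deriv_eq_sub
  have h4 : f b - f 0 ≤ ∫ s in (0:ℝ)..b, deriv f s := by
    have h5 := h2.2
    have h6 : ∫ s in (0:ℝ)..b, deriv (fun x => -f x) s = - ∫ s in (0:ℝ)..b, deriv f s := by
      rw [e2]
      exact intervalIntegral.integral_neg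
    have h7 : ∫ s in (0:ℝ)..b, deriv (fun x => -f x) s ≤ (-f b) - (-f 0) := h5
    rw [h6] at h7
    linarith
  have h5 : IntervalIntegrable (deriv f) volume 0 b := by
    have := h2.1
    have h6 : IntervalIntegrable (fun s => -deriv f s) volume 0 b := by
      have h7 : IntervalIntegrable (deriv (fun x => -f x)) volume 0 b := this
      rwa [e2] at h7
    have h8 : (-fun s => -deriv f s) = deriv f := by
      funext s
      simp
    rw [← h8]
    exact h6.neg
  have h6 : ∫ s in (0:ℝ)..b, (deriv eta s + deriv f s) ≤ ∫ s in (0:ℝ)..b, rho * deriv eta s := by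
    apply intervalIntegral.integral_mono_ae_restrict hb (h1.1.add h5) (h1.1.const_mul rho)
    have h4 : volume.restrict (Icc 0 b) = volume.restrict (Ioo (0:ℝ) b) :=
      (Measure.restrict_congr_set Ioo_ae_eq_Icc).symm
    rw [h4]
    exact hae
  rw [intervalIntegral.integral_add h1.1 h5, intervalIntegral.integral_const_mul, h3] at h6
  linarith

end Pool.Agent.Helper33.MX
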